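import Pool.Agent.PFC.StmtsB2

/-!
Squad PFC, block B2, row FIN (helper18): every finite-dimensional representation is isomorphic to
one on `Fin n → k`.
-/

set_option autoImplicit false

noncomputable section

namespace Pool.Agent.PFC.B2.H18

open Pool.Agent.PFC.B1

/-- transport of a representation along a linear equivalence -/
def tr {R A k M N : Type} [CommRing R] [Ring A] [Algebra R A] [CommRing k] [Algebra R k]
    [AddCommGroup M] [Module k M] [AddCommGroup N] [Module k N] (ρ : Rp R A k M)
    (f : M ≃ₗ[k] N) : Rp R A k N where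
  ρ :=
    { toFun := fun a => f.toLinearMap ∘ₗ (ρ.ρ a) ∘ₗ f.symm.toLinearMap
      map_one' := by
        apply LinearMap.ext; intro w
        show f (ρ.ρ 1 (f.symm w)) = w
        rw [map_one]
        exact f.apply_symm_apply w
      map_mul' := fun a b => by
        apply LinearMap.ext; intro w
        show f (ρ.ρ (a * b) (f.symm w)) = f (ρ.ρ a (f.symm (f (ρ.ρ b (f.symm w)))))
        rw [map_mul, f.symm_apply_apply]; rfl
      map_zero' := by
        apply LinearMap.ext; intro w
        show f (ρ.ρ 0 (f.symm w)) = 0
        rw [map_zero]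
        exact map_zero f
      map_add' := fun a b => by
        apply LinearMap.ext; intro w
        show f (ρ.ρ (a + b) (f.symm w)) = f (ρ.ρ a (f.symm w)) + f (ρ.ρ b (f.symm w))
        rw [map_add, LinearMap.add_apply, map_add] }
  sc := fun r w => by
    show f (ρ.ρ (algebraMap R A r) (f.symm w)) = algebraMap R k r • w
    rw [ρ.sc, map_smul, f.apply_symm_apply]

/-- FIN. -/
theorem fin : FinStmt := by
  intro R A k M _ _ _ _ _ _ _ _ ρ
  let f : M ≃ₗ[k] (Fin (Module.finrank k M) → k) := (Module.finBasis k M).equivFun
  refine ⟨Module.finrank k M, tr ρ f, f, ?_⟩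
  intro a x
  show f (ρ.ρ a x) = f (ρ.ρ a (f.symm (f x)))
  rw [f.symm_apply_apply]

end Pool.Agent.PFC.B2.H18
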