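import Pool.Agent.PFC.StmtsB4b
import Pool.Agent.Helper15_PFC.BRK

/-!
Squad PFC, block B4b, row QKE (helper18): kernel and image of a split Brauer quotient on the fixed
vectors.
-/

set_option autoImplicit false

noncomputable section

namespace Pool.Agent.PFC.H18

open scoped BigOperators

/-- QKE. -/
theorem qke : QkeStmt := by
  intro ℓ _ F V M N _ _ _ _ _ _ _ _ ρ ρ' Q β s hV hB
  refine ⟨?_, ?_, ?_⟩
  · intro n q hq
    rw [← hB.es, hB.tr q hq]
  · exact B5c.H15.brk ℓ F V M N ρ ρ' Q β s hV hB
  · intro m hm
    have key : ∀ T ∈ PT ρ Q, T m ∈ BK ρ Q := by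
      intro T hT
      unfold PT at hT
      induction hT using Submodule.span_induction with
      | mem T hT =>
        obtain ⟨K, S, h, hK, hS, hh, hT⟩ := hT
        refine Submodule.subset_span ⟨K, S, h m, hK, hS, ?_, ?_⟩
        · intro k hk
          rw [hh k hk, hm k (hK.le hk)]
        · rw [hT m]
          refine Finset.sum_congr rfl fun x hx => ?_
          rw [hm x⁻¹ (Q.inv_mem (hS.1 x hx))]
      | zero => exact Submodule.zero_mem _
      | add a b _ _ ha hb => exact Submodule.add_mem _ ha hb
      | smul r a _ ha => exact Submodule.smul_mem _ _ ha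
    exact key _ hB.hg

end Pool.Agent.PFC.H18
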